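import Pool.Agent.P8H63.HR.K0

/-! Project HR: package B. -/

namespace Pool.Agent.P8H63.HR

open Matrix P8H97.HR

/-- two of the coordinates in an eigenbasis -/
def two (P P' : M2) : M4 →ₗ[ℝ] (Fin 2 → ℝ) where
  toFun X := ![(sym3 P' * X * sym3 P) 0 0, (sym3 P' * X * sym3 P) 1 1]
  map_add' X Y := by
    rw [mul_add, add_mul]
    ext i; fin_cases i <;> simp
  map_smul' s X := by
    rw [Matrix.mul_smul, Matrix.smul_mul]
    ext i; fin_cases i <;> simp

theorem part_B3 : S_B3 := by
  intro A hA
  obtain ⟨P, P', l, m, h1, h2, hP, hlm, hl0, hm0, hne, hAP⟩ := diag_hyp A hA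
  have hQ : sym3 P * sym3 P' = 1 := by rw [← sym3_mul, h1, sym3_one]
  have hQ' : sym3 P' * sym3 P = 1 := by rw [← sym3_mul, h2, sym3_one]
  have hAe : (A : M2) = P * dg l m * P' := by
    rw [← hAP, mul_assoc, h1, mul_one]
  have inj : Function.Injective ((two P P').comp (spc (sym3 (A : M2))).subtype) := by
    rw [injective_iff_map_eq_zero]
    rintro ⟨X, hX, hc⟩ h0
    have e0 : (sym3 P' * X * sym3 P) 0 0 = 0 := congrFun h0 0
    have e1 : (sym3 P' * X * sym3 P) 1 1 = 0 := congrFun h0 1
    set X' := sym3 P' * X * sym3 P with hX'def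
    have hXX : X = sym3 P * X' * sym3 P' := by
      rw [hX'def]
      calc X = (sym3 P * sym3 P') * X * (sym3 P * sym3 P') := by rw [hQ, one_mul, mul_one]
        _ = _ := by simp only [mul_assoc]
    obtain ⟨e33, e22, -, -, -, -⟩ := sp_eqs (sp_conj P' P h2 hX)
    have e33' : X' 3 3 = -X' 0 0 := e33
    have e22' : X' 2 2 = -X' 1 1 := e22
    have hcomm : X' * sym3 (dg l m) = sym3 (dg l m) * X' := by
      have hM' : sym3 (dg l m) = sym3 P' * sym3 (A : M2) * sym3 P := by
        rw [hAe, sym3_mul, sym3_mul]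
        calc sym3 (dg l m) = (sym3 P' * sym3 P) * sym3 (dg l m) * (sym3 P' * sym3 P) := by
              rw [hQ', one_mul, mul_one]
          _ = _ := by simp only [mul_assoc]
      rw [hM', hX'def]
      calc sym3 P' * X * sym3 P * (sym3 P' * sym3 (A : M2) * sym3 P)
          = sym3 P' * X * (sym3 P * sym3 P') * sym3 (A : M2) * sym3 P := by simp only [mul_assoc]
        _ = sym3 P' * (sym3 (A : M2) * X) * sym3 P := by
            rw [hQ, mul_one, hc]; simp only [mul_assoc]
        _ = sym3 P' * sym3 (A : M2) * (sym3 P * sym3 P') * X * sym3 P := by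
            rw [hQ, mul_one]; simp only [mul_assoc]
        _ = _ := by simp only [mul_assoc]
    rw [sym3_dg l m hlm] at hcomm
    have hdiag := comm_diag (dist l m hlm hne) hcomm
    have hz : X' = 0 := by
      ext i j
      by_cases hij : i = j
      · subst hij
        fin_cases i
        · exact e0
        · exact e1
        · have e4 : X' 2 2 = 0 := by rw [e22', e1, neg_zero]
          exact e4
        · have e4 : X' 3 3 = 0 := by rw [e33', e0, neg_zero]
          exact e4
      · exact hdiag i j hij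
    apply Subtype.ext
    change X = 0
    rw [hXX, hz, mul_zero, zero_mul]
  have h := LinearMap.finrank_le_finrank_of_injective inj
  rwa [Module.finrank_fin_fun] at h

/-- ten of the coordinates -/
def ten : M4 →ₗ[ℝ] (Fin 10 → ℝ) where
  toFun X := ![X 0 0, X 0 1, X 0 2, X 0 3, X 1 1, X 1 2, X 3 0, X 3 1, X 3 2, X 2 1]
  map_add' X Y := by
    ext i; fin_cases i <;> simp
  map_smul' s X := by
    ext i; fin_cases i <;> simp

theorem part_B4 : S_B4 := by
  have inj : Function.Injective (ten.comp sp.subtype) := by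
    rw [injective_iff_map_eq_zero]
    rintro ⟨X, hX⟩ h0
    have e0 : X 0 0 = 0 := congrFun h0 0
    have e1 : X 0 1 = 0 := congrFun h0 1
    have e2 : X 0 2 = 0 := congrFun h0 2
    have e3 : X 0 3 = 0 := congrFun h0 3
    have e4 : X 1 1 = 0 := congrFun h0 4
    have e5 : X 1 2 = 0 := congrFun h0 5
    have e6 : X 3 0 = 0 := congrFun h0 6
    have e7 : X 3 1 = 0 := congrFun h0 7
    have e8 : X 3 2 = 0 := congrFun h0 8
    have e9 : X 2 1 = 0 := congrFun h0 9
    obtain ⟨f1, f2, f3, f4, f5, f6⟩ := sp_eqs hX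
    rw [e0] at f1
    rw [e4] at f2
    rw [e1] at f3
    rw [e2] at f4
    rw [e8] at f5
    rw [e7] at f6
    apply Subtype.ext
    change X = 0
    ext i j
    fin_cases i <;> fin_cases j <;> simp [e0, e1, e2, e3, e4, e5, e6, e7, e8, e9, f1, f2, f3, f4, f5, f6]
  have h := LinearMap.finrank_le_finrank_of_injective inj
  rwa [Module.finrank_fin_fun] at h

/-- transfer of the lower bound under conjugation -/
theorem four_le (C P P' N : M2) (r : ℝ) (h1 : P * P' = 1) (h2 : P' * P = 1)
    (hC : C * P = P * (r • N)) (L : (Fin 4 → ℝ) →ₗ[ℝ] M4) (hL : Function.Injective L)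
    (hsp : ∀ v, L v ∈ sp) (hcm : ∀ v, sym3 N * L v = L v * sym3 N) :
    4 ≤ Module.finrank ℝ (spc (sym3 C)) := by
  have hQ : sym3 P * sym3 P' = 1 := by rw [← sym3_mul, h1, sym3_one]
  have hQ' : sym3 P' * sym3 P = 1 := by rw [← sym3_mul, h2, sym3_one]
  have hCe : C = P * (r • N) * P' := by
    rw [← hC, mul_assoc, h1, mul_one]
  have hC4 : sym3 C = r ^ 3 • (sym3 P * sym3 N * sym3 P') := by
    rw [hCe, sym3_mul, sym3_mul, sym3_smul, Matrix.mul_smul, Matrix.smul_mul]
  have hmem : ∀ v, sym3 P * L v * sym3 P' ∈ spc (sym3 C) := by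
    intro v
    refine ⟨sp_conj P P' h1 (hsp v), ?_⟩
    rw [hC4, Matrix.smul_mul, Matrix.mul_smul]
    congr 1
    calc sym3 P * sym3 N * sym3 P' * (sym3 P * L v * sym3 P')
        = sym3 P * sym3 N * (sym3 P' * sym3 P) * L v * sym3 P' := by simp only [mul_assoc]
      _ = sym3 P * (sym3 N * L v) * sym3 P' := by rw [hQ', mul_one]; simp only [mul_assoc]
      _ = sym3 P * L v * (sym3 P' * sym3 P) * sym3 N * sym3 P' := by
          rw [hcm, hQ', mul_one]; simp only [mul_assoc]
      _ = _ := by simp only [mul_assoc]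
  let F : (Fin 4 → ℝ) →ₗ[ℝ] spc (sym3 C) :=
    { toFun := fun v => ⟨sym3 P * L v * sym3 P', hmem v⟩
      map_add' := fun v w => by
        apply Subtype.ext
        change sym3 P * L (v + w) * sym3 P' = sym3 P * L v * sym3 P' + sym3 P * L w * sym3 P'
        rw [map_add, mul_add, add_mul]
      map_smul' := fun s v => by
        apply Subtype.ext
        change sym3 P * L (s • v) * sym3 P' = s • (sym3 P * L v * sym3 P')
        rw [map_smul, Matrix.mul_smul, Matrix.smul_mul] }
  have hF : Function.Injective F := by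
    rw [injective_iff_map_eq_zero]
    intro v hv
    have h3 : sym3 P * L v * sym3 P' = 0 := congrArg Subtype.val hv
    have h4 : L v = 0 := by
      calc L v = (sym3 P' * sym3 P) * L v * (sym3 P' * sym3 P) := by rw [hQ', one_mul, mul_one]
        _ = sym3 P' * (sym3 P * L v * sym3 P') * sym3 P := by simp only [mul_assoc]
        _ = 0 := by rw [h3, mul_zero, zero_mul]
    exact (injective_iff_map_eq_zero L).mp hL v h4
  have h := LinearMap.finrank_le_finrank_of_injective hF
  rwa [Module.finrank_fin_fun] at h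

/-- the elements of `sp` commuting with `sym3 diag(1,-1)` -/
def L1 : (Fin 4 → ℝ) →ₗ[ℝ] M4 where
  toFun v := !![v 0, 0, v 2, 0; 0, v 1, 0, -3 * v 2; -3 * v 3, 0, -v 1, 0; 0, v 3, 0, -v 0]
  map_add' v w := by
    ext i j
    fin_cases i <;> fin_cases j <;> simp <;> ring
  map_smul' s v := by
    ext i j
    fin_cases i <;> fin_cases j <;> simp <;> ring

/-- the elements of `sp` commuting with `sym3` of the rotation by a right angle -/
def L2 : (Fin 4 → ℝ) →ₗ[ℝ] M4 where
  toFun v := !![0, v 0, v 1, v 2; -3 * v 0, 0, v 3, -3 * v 1; -3 * v 1, -v 3, 0, 3 * v 0;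
    -v 2, v 1, -v 0, 0]
  map_add' v w := by
    ext i j
    fin_cases i <;> fin_cases j <;> simp <;> ring
  map_smul' s v := by
    ext i j
    fin_cases i <;> fin_cases j <;> simp <;> ring

theorem case1 (C P P' : M2) (r : ℝ) (h1 : P * P' = 1) (h2 : P' * P = 1)
    (hC : C * P = P * (r • !![1, 0; 0, -1])) : 4 ≤ Module.finrank ℝ (spc (sym3 C)) := by
  refine four_le C P P' _ r h1 h2 hC L1 ?_ ?_ ?_
  · rw [injective_iff_map_eq_zero]
    intro v hv
    have e : ∀ i j, L1 v i j = 0 := fun i j => by rw [hv]; rfl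
    have e0 : v 0 = 0 := e 0 0
    have e1 : v 1 = 0 := e 1 1
    have e2 : v 2 = 0 := e 0 2
    have e3 : v 3 = 0 := e 3 1
    ext i
    fin_cases i
    · exact e0
    · exact e1
    · exact e2
    · exact e3
  · intro v
    apply mem_sp
    refine ⟨?_, ?_, ?_, ?_, ?_, ?_⟩ <;> simp [L1]
  · intro v
    ext i j
    fin_cases i <;> fin_cases j <;>
      simp [L1, sym3, Matrix.mul_apply, Fin.sum_univ_succ, Matrix.vecMul, dotProduct] <;> ring

theorem case2 (C P P' : M2) (r : ℝ) (h1 : P * P' = 1) (h2 : P' * P = 1)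
    (hC : C * P = P * (r • !![0, -1; 1, 0])) : 4 ≤ Module.finrank ℝ (spc (sym3 C)) := by
  refine four_le C P P' _ r h1 h2 hC L2 ?_ ?_ ?_
  · rw [injective_iff_map_eq_zero]
    intro v hv
    have e : ∀ i j, L2 v i j = 0 := fun i j => by rw [hv]; rfl
    have e0 : v 0 = 0 := e 0 1
    have e1 : v 1 = 0 := e 0 2
    have e2 : v 2 = 0 := e 0 3
    have e3 : v 3 = 0 := e 1 2
    ext i
    fin_cases i
    · exact e0
    · exact e1
    · exact e2
    · exact e3
  · intro v
    apply mem_sp
    refine ⟨?_, ?_, ?_, ?_, ?_, ?_⟩ <;> simp [L2]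
  · intro v
    ext i j
    fin_cases i <;> fin_cases j <;>
      simp [L2, sym3, Matrix.mul_apply, Fin.sum_univ_succ, Matrix.vecMul, dotProduct] <;> ring

theorem inv2 (p q r s : ℝ) (h : p * s - q * r ≠ 0) :
    (!![p, q; r, s] : M2) * ((p * s - q * r)⁻¹ • !![s, -q; -r, p]) = 1 ∧
    ((p * s - q * r)⁻¹ • !![s, -q; -r, p] : M2) * !![p, q; r, s] = 1 := by
  have h3 : (!![p, q; r, s] : M2) * ((p * s - q * r)⁻¹ • !![s, -q; -r, p]) = 1 := by
    rw [Matrix.mul_smul]
    ext i j
    fin_cases i <;> fin_cases j <;>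
      simp [Matrix.mul_apply, Fin.sum_univ_succ]
    · field_simp
      ring
    · right; ring
    · right; ring
    · field_simp
      ring
  exact ⟨h3, mul_eq_one_comm.mp h3⟩

theorem part_B2 : S_B2 := by
  intro C htr hdet
  set a := C 0 0 with ha
  set b := C 0 1 with hb
  set c := C 1 0 with hc
  have hd : C 1 1 = -a := by
    rw [Matrix.trace_fin_two] at htr
    linarith
  have hCe : C = !![a, b; c, -a] := by
    ext i j
    fin_cases i <;> fin_cases j
    · rfl
    · rfl
    · rfl
    · exact hd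
  rw [hCe, Matrix.det_fin_two_of] at hdet
  have mk1 : ∀ p q r s t : ℝ, p * s - q * r ≠ 0 → a * p + b * r = t * p → c * p + (-a) * r = t * r →
      a * q + b * s = -t * q → c * q + (-a) * s = -t * s →
      4 ≤ Module.finrank ℝ (spc (sym3 C)) := by
    intro p q r s t h e1 e2 e3 e4
    obtain ⟨h1, h2⟩ := inv2 p q r s h
    refine case1 C _ _ t h1 h2 ?_
    rw [hCe, Matrix.mul_smul]
    ext i j
    fin_cases i <;> fin_cases j <;>
      simp [Matrix.mul_apply, Fin.sum_univ_succ] <;> linarith
  rcases lt_or_gt_of_ne hdet with hneg | hpos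
  · set s := Real.sqrt (a ^ 2 + b * c) with hs
    have hs2 : s ^ 2 = a ^ 2 + b * c := Real.sq_sqrt (by nlinarith)
    have hs0 : 0 < s := Real.sqrt_pos.mpr (by nlinarith)
    by_cases hc0 : c = 0
    · by_cases hb0 : b = 0
      · refine mk1 1 0 0 1 a (by norm_num) ?_ ?_ ?_ ?_
        · rw [hb0]; ring
        · rw [hc0]; ring
        · rw [hb0]; ring
        · rw [hc0]; ring
      · refine mk1 b b (s - a) (-s - a) s ?_ ?_ ?_ ?_ ?_
        · have : b * (-s - a) - b * (s - a) = -2 * (b * s) := by ring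
          rw [this]
          exact mul_ne_zero (by norm_num) (mul_ne_zero hb0 hs0.ne')
        · ring
        · linear_combination -hs2
        · ring
        · linear_combination -hs2
    · refine mk1 (a + s) (a - s) c c s ?_ ?_ ?_ ?_ ?_
      · have : (a + s) * c - (a - s) * c = 2 * (c * s) := by ring
        rw [this]
        exact mul_ne_zero (by norm_num) (mul_ne_zero hc0 hs0.ne')
      · linear_combination -hs2
      · ring
      · linear_combination -hs2
      · ring
  · set s := Real.sqrt (-a ^ 2 - b * c) with hs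
    have hs2 : s ^ 2 = -a ^ 2 - b * c := Real.sq_sqrt (by nlinarith)
    have hs0 : 0 < s := Real.sqrt_pos.mpr (by nlinarith)
    have hc0 : c ≠ 0 := by
      intro h
      rw [h] at hpos
      nlinarith [sq_nonneg a]
    obtain ⟨h1, h2⟩ := inv2 s a 0 c (by rw [mul_zero, sub_zero]; exact mul_ne_zero hs0.ne' hc0)
    refine case2 C _ _ s h1 h2 ?_
    rw [hCe, Matrix.mul_smul]
    ext i j
    fin_cases i <;> fin_cases j <;>
      simp [Matrix.mul_apply, Fin.sum_univ_succ]
    · ring
    · linear_combination hs2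
    · ring
    · ring

end Pool.Agent.P8H63.HR
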