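import Pool.Agent.P8H63.HR.K0

/-! Project HR: package K. -/

namespace Pool.Agent.P8H63.HR

open Matrix P8H97.HR

theorem inv_of {P P' : M2} (h : P * P' = 1) : sym3 P * sym3 P' = 1 := by
  rw [← sym3_mul, h, sym3_one]

theorem sl2_inv (A : SL2) {P P' : M2} {l m : ℝ} (h1 : P * P' = 1) (h2 : P' * P = 1)
    (hlm : l * m = 1) (hA : (A : M2) * P = P * dg l m) :
    ((A⁻¹ : SL2) : M2) = P * dg m l * P' := by
  have hAe : (A : M2) = P * dg l m * P' := by
    rw [← hA, mul_assoc, h1, mul_one]
  have h3 : (A : M2) * (P * dg m l * P') = 1 := by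
    have h4 : dg l m * dg m l = 1 := by
      ext i j
      fin_cases i <;> fin_cases j <;>
        simp [dg, Matrix.mul_apply, Fin.sum_univ_succ] <;> linarith
    calc (A : M2) * (P * dg m l * P') = P * (dg l m * (P' * P) * dg m l) * P' := by
          rw [hAe]; simp only [mul_assoc]
      _ = 1 := by rw [h2, mul_one, h4, mul_one, h1]
  have h5 : ((A⁻¹ : SL2) : M2) * (A : M2) = 1 := by
    rw [← Matrix.SpecialLinearGroup.coe_mul, inv_mul_cancel, Matrix.SpecialLinearGroup.coe_one]
  calc ((A⁻¹ : SL2) : M2) = ((A⁻¹ : SL2) : M2) * ((A : M2) * (P * dg m l * P')) := by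
        rw [h3, mul_one]
    _ = _ := by rw [← mul_assoc, h5, one_mul]

theorem part_K5 : S_K5 := by
  intro A hA
  obtain ⟨P, P', l, m, h1, h2, hP, hlm, hl0, hm0, hne, hAP⟩ := diag_hyp A hA
  have hQ : sym3 P * sym3 P' = 1 := inv_of h1
  have hQ' : sym3 P' * sym3 P = 1 := inv_of h2
  have hAe : (A : M2) = P * dg l m * P' := by
    rw [← hAP, mul_assoc, h1, mul_one]
  have hAi := sl2_inv A h1 h2 hlm hAP
  set Q := sym3 P with hQdef
  set Q' := sym3 P' with hQ'def
  have hA4 : sym3 (A : M2) = Q * sym3 (dg l m) * Q' := by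
    rw [hAe, sym3_mul, sym3_mul]
  have hAi4 : sym3 ((A⁻¹ : SL2) : M2) = Q * sym3 (dg m l) * Q' := by
    rw [hAi, sym3_mul, sym3_mul]
  have hg : sym3 (dg l m) * sym3 (dg m l) = 1 := by
    rw [← sym3_mul]
    have h4 : dg l m * dg m l = 1 := by
      ext i j
      fin_cases i <;> fin_cases j <;>
        simp [dg, Matrix.mul_apply, Fin.sum_univ_succ] <;> linarith
    rw [h4, sym3_one]
  have hJ : (!![0, 1; -1, 0] : M2) * dg l m = dg m l * !![0, 1; -1, 0] := by
    ext i j
    fin_cases i <;> fin_cases j <;>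
      simp [dg, Matrix.mul_apply, Fin.sum_univ_succ]
  have hW : sym3 !![0, 1; -1, 0] * sym3 (dg l m) = sym3 (dg m l) * sym3 !![0, 1; -1, 0] := by
    rw [← sym3_mul, hJ, sym3_mul]
  refine ⟨Q * sym3 !![0, 1; -1, 0] * Q', ?_, ?_, ?_⟩
  · rw [Matrix.det_mul, Matrix.det_mul]
    have hd : Q.det * Q'.det = 1 := by rw [← Matrix.det_mul, hQ, Matrix.det_one]
    have : Q.det * (sym3 !![0, 1; -1, 0]).det * Q'.det = (sym3 !![0, 1; -1, 0]).det := by
      linear_combination (sym3 !![0, 1; -1, 0]).det * hd
    rw [this, sym3_det, Matrix.det_fin_two_of]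
    norm_num
  · rw [hA4, hAi4]
    calc Q * sym3 !![0, 1; -1, 0] * Q' * (Q * sym3 (dg l m) * Q')
        = Q * sym3 !![0, 1; -1, 0] * (Q' * Q) * sym3 (dg l m) * Q' := by simp only [mul_assoc]
      _ = Q * (sym3 !![0, 1; -1, 0] * sym3 (dg l m)) * Q' := by rw [hQ', mul_one]; simp only [mul_assoc]
      _ = Q * sym3 (dg m l) * sym3 !![0, 1; -1, 0] * Q' := by rw [hW]; simp only [mul_assoc]
      _ = Q * sym3 (dg m l) * (Q' * Q) * sym3 !![0, 1; -1, 0] * Q' := by rw [hQ', mul_one]
      _ = _ := by simp only [mul_assoc]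
  · intro X hX
    set X' := Q' * X * Q with hX'def
    have hX' : X' ∈ sp := sp_conj P' P h2 hX
    have hXX : X = Q * X' * Q' := by
      rw [hX'def]
      calc X = (Q * Q') * X * (Q * Q') := by rw [hQ, one_mul, mul_one]
        _ = _ := by simp only [mul_assoc]
    obtain ⟨e33, e22, -, -, -, -⟩ := sp_eqs hX'
    set g : Fin 4 → ℝ := ![l ^ 3, l, m, m ^ 3] with hgdef
    set gi : Fin 4 → ℝ := ![m ^ 3, m, l, l ^ 3] with hgidef
    have hG : sym3 (dg l m) = Matrix.diagonal g := sym3_dg l m hlm
    have hGi : sym3 (dg m l) = Matrix.diagonal gi := sym3_dg m l (by rw [mul_comm]; exact hlm)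
    have hggi : ∀ i, g i * gi i = 1 := by
      intro i
      have h3 : l ^ 3 * m ^ 3 = 1 := by rw [← mul_pow, hlm, one_pow]
      fin_cases i <;> simp [hgdef, hgidef]
      · exact h3
      · exact hlm
      · rw [mul_comm]; exact hlm
      · rw [mul_comm]; exact h3
    have hdist := dist l m hlm hne
    have hden : ∀ i j, i ≠ j → 1 - g i * gi j ≠ 0 := by
      intro i j hij h
      apply hdist i j hij
      change g i = g j
      linear_combination (-(g i)) * hggi j + (-(g j)) * h
    let Y' : M4 := Matrix.of fun i j => if i = j then 0 else X' i j / (1 - g i * gi j)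
    let H' : M4 := Matrix.diagonal fun i => X' i i
    have hdec : X' = (Y' - sym3 (dg l m) * Y' * sym3 (dg m l)) + H' := by
      rw [hG, hGi]
      ext i j
      rw [Matrix.add_apply, Matrix.sub_apply, Matrix.mul_diagonal, Matrix.diagonal_mul]
      by_cases hij : i = j
      · subst hij
        simp [Y', H']
      · simp only [Y', H', Matrix.of_apply, if_neg hij, Matrix.diagonal_apply_ne _ hij]
        have := hden i j hij
        field_simp
        ring
    refine ⟨Q * Y' * Q', Q * H' * Q', ?_, ?_, ?_, ?_⟩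
    · rw [hA4, hAi4]
      calc X = Q * X' * Q' := hXX
        _ = Q * ((Y' - sym3 (dg l m) * Y' * sym3 (dg m l)) + H') * Q' := by rw [← hdec]
        _ = (Q * Y' * Q' - Q * sym3 (dg l m) * (Q' * Q) * Y' * (Q' * Q) * sym3 (dg m l) * Q') +
            Q * H' * Q' := by
          rw [hQ', mul_one, mul_one]
          simp only [mul_add, add_mul, mul_sub, sub_mul, mul_assoc]
        _ = _ := by simp only [mul_assoc]
    · rw [Matrix.trace_mul_comm, ← mul_assoc, hQ', one_mul]
      simp [H', Matrix.trace, Fin.sum_univ_succ]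
      linarith
    · rw [hA4, hG]
      have hc : H' * Matrix.diagonal g = Matrix.diagonal g * H' := by
        simp only [H', Matrix.diagonal_mul_diagonal]
        congr 1
        ext i
        ring
      calc Q * H' * Q' * (Q * Matrix.diagonal g * Q') = Q * H' * (Q' * Q) * Matrix.diagonal g * Q' := by
            simp only [mul_assoc]
        _ = Q * (H' * Matrix.diagonal g) * Q' := by rw [hQ', mul_one]; simp only [mul_assoc]
        _ = Q * Matrix.diagonal g * (Q' * Q) * H' * Q' := by
            rw [hc, hQ', mul_one]; simp only [mul_assoc]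
        _ = _ := by simp only [mul_assoc]
    · have hc : sym3 !![0, 1; -1, 0] * H' = -(H' * sym3 !![0, 1; -1, 0]) := by
        ext i j
        rw [Matrix.neg_apply]
        simp only [H']
        rw [Matrix.mul_diagonal, Matrix.diagonal_mul]
        fin_cases i <;> fin_cases j <;> simp [sym3] <;> linarith
      calc Q * sym3 !![0, 1; -1, 0] * Q' * (Q * H' * Q')
          = Q * sym3 !![0, 1; -1, 0] * (Q' * Q) * H' * Q' := by simp only [mul_assoc]
        _ = Q * (sym3 !![0, 1; -1, 0] * H') * Q' := by rw [hQ', mul_one]; simp only [mul_assoc]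
        _ = -(Q * H' * (Q' * Q) * sym3 !![0, 1; -1, 0] * Q') := by
            rw [hc, hQ', mul_one, mul_neg, neg_mul]; simp only [mul_assoc]
        _ = _ := by simp only [mul_assoc]

theorem part_K6 : S_K6 := by
  intro A B hA hB hAB X hXA hXB
  obtain ⟨P, P', l, m, h1, h2, hP, hlm, hl0, hm0, hne, hAP⟩ := diag_hyp A hA
  have hQ : sym3 P * sym3 P' = 1 := inv_of h1
  have hQ' : sym3 P' * sym3 P = 1 := inv_of h2
  have hAe : (A : M2) = P * dg l m * P' := by
    rw [← hAP, mul_assoc, h1, mul_one]
  have hAi := sl2_inv A h1 h2 hlm hAP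
  set B' : M2 := P' * (B : M2) * P with hB'def
  have hBe : (B : M2) = P * B' * P' := by
    rw [hB'def]
    calc (B : M2) = (P * P') * (B : M2) * (P * P') := by rw [h1, one_mul, mul_one]
      _ = _ := by simp only [mul_assoc]
  have hdB : B'.det = 1 := by
    have hd : P'.det * P.det = 1 := by rw [← Matrix.det_mul, h2, Matrix.det_one]
    rw [hB'def, Matrix.det_mul, Matrix.det_mul, B.2]
    linear_combination hd
  have htB : B'.trace = (B : M2).trace := by
    rw [hB'def, Matrix.trace_mul_comm, ← mul_assoc, h1, one_mul]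
  set a := B' 0 0 with ha
  set b := B' 0 1 with hb
  set c := B' 1 0 with hc
  set d := B' 1 1 with hd
  have hB'e : B' = !![a, b; c, d] := by
    ext i j; fin_cases i <;> fin_cases j <;> rfl
  have hdet : a * d - b * c = 1 := by
    rw [hB'e, Matrix.det_fin_two_of] at hdB; exact hdB
  have htr : a + d = (B : M2).trace := by
    rw [← htB, hB'e, Matrix.trace_fin_two_of]
  have hBi : ((B⁻¹ : SL2) : M2) = P * !![d, -b; -c, a] * P' := by
    have h3 : (B : M2) * (P * !![d, -b; -c, a] * P') = 1 := by
      have h4 : B' * !![d, -b; -c, a] = 1 := by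
        rw [hB'e]
        ext i j
        fin_cases i <;> fin_cases j <;>
          simp [Matrix.mul_apply, Fin.sum_univ_succ] <;> linarith
      calc (B : M2) * (P * !![d, -b; -c, a] * P') = P * (B' * (P' * P) * !![d, -b; -c, a]) * P' := by
            rw [hBe]; simp only [mul_assoc]
        _ = 1 := by rw [h2, mul_one, h4, mul_one, h1]
    have h5 : ((B⁻¹ : SL2) : M2) * (B : M2) = 1 := by
      rw [← Matrix.SpecialLinearGroup.coe_mul, inv_mul_cancel, Matrix.SpecialLinearGroup.coe_one]
    calc ((B⁻¹ : SL2) : M2) = ((B⁻¹ : SL2) : M2) * ((B : M2) * (P * !![d, -b; -c, a] * P')) := by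
          rw [h3, mul_one]
      _ = _ := by rw [← mul_assoc, h5, one_mul]
  have hbc : b * c ≠ 0 := by
    intro h0
    have e1 : ((A * B * A⁻¹ * B⁻¹ : SL2) : M2) =
        P * (dg l m * B' * dg m l * !![d, -b; -c, a]) * P' := by
      rw [Matrix.SpecialLinearGroup.coe_mul, Matrix.SpecialLinearGroup.coe_mul,
        Matrix.SpecialLinearGroup.coe_mul, hAi, hBi]
      calc (A : M2) * (B : M2) * (P * dg m l * P') * (P * !![d, -b; -c, a] * P')
          = P * dg l m * (P' * P) * B' * (P' * P) * dg m l * (P' * P) * !![d, -b; -c, a] * P' := by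
            rw [hAe, hBe]; simp only [mul_assoc]
        _ = _ := by rw [h2]; simp only [mul_one, mul_assoc]
    rw [e1, Matrix.trace_mul_comm, ← mul_assoc, h2, one_mul] at hAB
    have e2 : (dg l m * B' * dg m l * !![d, -b; -c, a]).trace = 2 := by
      rw [hB'e, dg, dg, Matrix.trace_fin_two]
      simp [Matrix.mul_apply, Fin.sum_univ_succ]
      have e3 : l * m = 1 := hlm
      linear_combination (a * d * 2) * e3 + 2 * hdet + (2 - l ^ 2 - m ^ 2) * h0
    rw [e2] at hAB
    norm_num at hAB
  have hb0 : b ≠ 0 := left_ne_zero_of_mul hbc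
  have hc0 : c ≠ 0 := right_ne_zero_of_mul hbc
  set X' := sym3 P' * X * sym3 P with hX'def
  have hXX : X = sym3 P * X' * sym3 P' := by
    rw [hX'def]
    calc X = (sym3 P * sym3 P') * X * (sym3 P * sym3 P') := by rw [hQ, one_mul, mul_one]
      _ = _ := by simp only [mul_assoc]
  have tr : ∀ M M' : M2, M = P * M' * P' → X * sym3 M = sym3 M * X →
      X' * sym3 M' = sym3 M' * X' := by
    intro M M' hM hc
    have hM' : sym3 M' = sym3 P' * sym3 M * sym3 P := by
      rw [hM, sym3_mul, sym3_mul]
      calc sym3 M' = (sym3 P' * sym3 P) * sym3 M' * (sym3 P' * sym3 P) := by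
            rw [hQ', one_mul, mul_one]
        _ = _ := by simp only [mul_assoc]
    rw [hM', hX'def]
    calc sym3 P' * X * sym3 P * (sym3 P' * sym3 M * sym3 P)
        = sym3 P' * X * (sym3 P * sym3 P') * sym3 M * sym3 P := by simp only [mul_assoc]
      _ = sym3 P' * (X * sym3 M) * sym3 P := by rw [hQ, mul_one]; simp only [mul_assoc]
      _ = sym3 P' * sym3 M * (sym3 P * sym3 P') * X * sym3 P := by
          rw [hc, hQ, mul_one]; simp only [mul_assoc]
      _ = _ := by simp only [mul_assoc]
  have hXA' := tr _ _ hAe hXA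
  have hXB' := tr _ _ hBe hXB
  rw [sym3_dg l m hlm] at hXA'
  have hdiag := comm_diag (dist l m hlm hne) hXA'
  have e30 := congrFun (congrFun hXB' 3) 0
  have e10 := congrFun (congrFun hXB' 1) 0
  have e13 := congrFun (congrFun hXB' 1) 3
  have e20 := congrFun (congrFun hXB' 2) 0
  have e23 := congrFun (congrFun hXB' 2) 3
  have z01 := hdiag 0 1 (by decide)
  have z02 := hdiag 0 2 (by decide)
  have z03 := hdiag 0 3 (by decide)
  have z10 := hdiag 1 0 (by decide)
  have z12 := hdiag 1 2 (by decide)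
  have z13 := hdiag 1 3 (by decide)
  have z20 := hdiag 2 0 (by decide)
  have z21 := hdiag 2 1 (by decide)
  have z23 := hdiag 2 3 (by decide)
  have z30 := hdiag 3 0 (by decide)
  have z31 := hdiag 3 1 (by decide)
  have z32 := hdiag 3 2 (by decide)
  rw [hB'e] at e30 e10 e13 e20 e23
  rw [Matrix.mul_apply, Matrix.mul_apply] at e30 e10 e13 e20 e23
  simp only [Fin.sum_univ_four, z01, z02, z03, z10, z12, z13, z20, z21, z23, z30, z31, z32,
    zero_mul, mul_zero, add_zero, zero_add] at e30 e10 e13 e20 e23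
  simp [sym3] at e30 e10 e13 e20 e23
  have f30 : X' 3 3 = X' 0 0 := by
    have : (X' 3 3 - X' 0 0) * c ^ 3 = 0 := by linear_combination e30
    rcases mul_eq_zero.mp this with h | h
    · linarith
    · exact absurd h (pow_ne_zero 3 hc0)
  have had : a ≠ 0 ∨ d ≠ 0 := by
    by_contra hcon
    push Not at hcon
    rw [← htr, hcon.1, hcon.2] at hB
    norm_num at hB
  have hx1 : X' 1 1 = X' 0 0 := by
    rcases had with h | h
    · have : (X' 1 1 - X' 0 0) * (a ^ 2 * c) = 0 := by linear_combination e10 / 3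
      rcases mul_eq_zero.mp this with h' | h'
      · linarith
      · exact absurd h' (mul_ne_zero (pow_ne_zero 2 h) hc0)
    · have : (X' 1 1 - X' 3 3) * (b ^ 2 * d) = 0 := by linear_combination e13 / 3
      rcases mul_eq_zero.mp this with h' | h'
      · linarith
      · exact absurd h' (mul_ne_zero (pow_ne_zero 2 hb0) h)
  have hx2 : X' 2 2 = X' 0 0 := by
    rcases had with h | h
    · have : (X' 2 2 - X' 0 0) * (a * c ^ 2) = 0 := by linear_combination e20 / 3
      rcases mul_eq_zero.mp this with h' | h'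
      · linarith
      · exact absurd h' (mul_ne_zero h (pow_ne_zero 2 hc0))
    · have : (X' 2 2 - X' 3 3) * (b * d ^ 2) = 0 := by linear_combination e23 / 3
      rcases mul_eq_zero.mp this with h' | h'
      · linarith
      · exact absurd h' (mul_ne_zero hb0 (pow_ne_zero 2 h))
  have hX'1 : X' = X' 0 0 • (1 : M4) := by
    ext i j
    by_cases hij : i = j
    · subst hij
      rw [Matrix.smul_apply, Matrix.one_apply_eq, smul_eq_mul, mul_one]
      fin_cases i
      · rfl
      · exact hx1
      · exact hx2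
      · exact f30
    · rw [hdiag i j hij, Matrix.smul_apply, Matrix.one_apply_ne hij, smul_zero]
  refine ⟨X' 0 0, ?_⟩
  rw [hXX]
  conv_lhs => rw [hX'1]
  rw [Matrix.mul_smul, Matrix.smul_mul, mul_one, hQ]

end Pool.Agent.P8H63.HR
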