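import Pool.Agent.P8H97.HR.Stm

/-! Project HR: common lemmas for the packages K and B. -/

namespace Pool.Agent.P8H63.HR

open Matrix P8H97.HR

/-- diagonal 2x2 matrices -/
def dg (l m : ℝ) : M2 := !![l, 0; 0, m]

/-- diagonalisation of a hyperbolic element -/
theorem diag_hyp (A : SL2) (hA : 2 < |(A : M2).trace|) :
    ∃ (P P' : M2) (l m : ℝ), P * P' = 1 ∧ P' * P = 1 ∧ P.det = 1 ∧ l * m = 1 ∧ l ≠ 0 ∧ m ≠ 0 ∧
      l ^ 2 ≠ m ^ 2 ∧ (A : M2) * P = P * dg l m := by
  obtain ⟨A, hdet⟩ := A
  simp only at hA ⊢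
  set a := A 0 0 with ha
  set b := A 0 1 with hb
  set c := A 1 0 with hc
  set d := A 1 1 with hd
  have hAe : A = !![a, b; c, d] := by
    ext i j; fin_cases i <;> fin_cases j <;> rfl
  rw [hAe, Matrix.trace_fin_two_of] at hA
  rw [hAe, Matrix.det_fin_two_of] at hdet
  have ht : 4 < (a + d) ^ 2 := by
    have h2 : (2:ℝ) ^ 2 < |a + d| ^ 2 := by
      apply pow_lt_pow_left₀ hA (by norm_num) (by norm_num)
    rw [sq_abs] at h2
    linarith
  set D := Real.sqrt ((a + d) ^ 2 - 4) with hD
  have hDpos : 0 < D := Real.sqrt_pos.mpr (by linarith)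
  have hD2 : D ^ 2 = (a + d) ^ 2 - 4 := Real.sq_sqrt (by linarith)
  set l := (a + d + D) / 2 with hl
  set m := (a + d - D) / 2 with hm
  have hlm : l * m = 1 := by
    rw [hl, hm]; linear_combination (-1/4) * hD2
  have hls : l + m = a + d := by rw [hl, hm]; ring
  have hld : l - m = D := by rw [hl, hm]; ring
  have hl0 : l ≠ 0 := left_ne_zero_of_mul_eq_one hlm
  have hm0 : m ≠ 0 := right_ne_zero_of_mul_eq_one hlm
  have hne : l ^ 2 ≠ m ^ 2 := by
    intro h
    have h1 : (l + m) * (l - m) = 0 := by linear_combination h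
    rw [hls, hld] at h1
    rcases mul_eq_zero.mp h1 with h2 | h2
    · rw [h2] at ht; norm_num at ht
    · exact hDpos.ne' h2
  -- a general criterion
  have key : ∀ (p q r s l m : ℝ), p * s - q * r = 1 → l * m = 1 → l ^ 2 ≠ m ^ 2 →
      (a * p + b * r = l * p) → (c * p + d * r = l * r) → (a * q + b * s = m * q) →
      (c * q + d * s = m * s) →
      ∃ (P P' : M2) (l m : ℝ), P * P' = 1 ∧ P' * P = 1 ∧ P.det = 1 ∧ l * m = 1 ∧ l ≠ 0 ∧ m ≠ 0 ∧
      l ^ 2 ≠ m ^ 2 ∧ A * P = P * dg l m := by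
    intro p q r s l m h1 h2 h2' h3 h4 h5 h6
    refine ⟨!![p, q; r, s], !![s, -q; -r, p], l, m, ?_, ?_, ?_, h2,
      left_ne_zero_of_mul_eq_one h2, right_ne_zero_of_mul_eq_one h2, h2', ?_⟩
    · ext i j
      fin_cases i <;> fin_cases j <;>
        simp [Matrix.mul_apply, Fin.sum_univ_succ] <;> linarith
    · ext i j
      fin_cases i <;> fin_cases j <;>
        simp [Matrix.mul_apply, Fin.sum_univ_succ] <;> linarith
    · rw [Matrix.det_fin_two_of]; linarith
    · rw [hAe, dg]
      ext i j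
      fin_cases i <;> fin_cases j <;>
        simp [Matrix.mul_apply, Fin.sum_univ_succ] <;> linarith
  by_cases hb0 : b = 0
  · by_cases hc0 : c = 0
    · -- diagonal
      rw [hb0, hc0] at hdet
      have had : a * d = 1 := by linarith
      refine key 1 0 0 1 a d (by ring) had ?_ (by rw [hb0]; ring) (by rw [hc0]; ring)
        (by rw [hb0]; ring) (by rw [hc0]; ring)
      intro h
      have h1 : (a + d) * (a - d) = 0 := by linear_combination h
      rcases mul_eq_zero.mp h1 with h2 | h2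
      · rw [h2] at ht; norm_num at ht
      · have h3 : a = d := by linarith
        rw [h3] at had ht
        nlinarith
    · -- c ≠ 0, b = 0 (formula valid for c ≠ 0)
      have hcD : c * D ≠ 0 := mul_ne_zero hc0 hDpos.ne'
      refine key ((l - d) / (c * D)) (m - d) (c / (c * D)) c l m ?_ hlm hne ?_ ?_ ?_ ?_
      · field_simp
        linear_combination hld
      · field_simp
        have e1 : a * d - b * c = 1 := hdet
        have e2 : l ^ 2 - (a + d) * l + 1 = 0 := by rw [← hls]; linear_combination (-1) * hlm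
        linear_combination (-1) * e2 - e1
      · field_simp
        ring
      · have e1 : a * d - b * c = 1 := hdet
        have e2 : m ^ 2 - (a + d) * m + 1 = 0 := by rw [← hls]; linear_combination (-1) * hlm
        linear_combination (-1) * e2 - e1
      · ring
  · have hbD : b * D ≠ 0 := mul_ne_zero hb0 hDpos.ne'
    refine key (-b / (b * D)) b (-(l - a) / (b * D)) (m - a) l m ?_ hlm hne ?_ ?_ ?_ ?_
    · field_simp
      linear_combination hld
    · field_simp
      ring
    · field_simp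
      have e1 : a * d - b * c = 1 := hdet
      have e2 : l ^ 2 - (a + d) * l + 1 = 0 := by rw [← hls]; linear_combination (-1) * hlm
      linear_combination e2 + e1
    · ring
    · have e1 : a * d - b * c = 1 := hdet
      have e2 : m ^ 2 - (a + d) * m + 1 = 0 := by rw [← hls]; linear_combination (-1) * hlm
      linear_combination (-1) * e2 - e1

/-- the Lie algebra of the symplectic group is stable under conjugation by `sym3 P` -/
theorem sp_conj (P P' : M2) (h : P * P' = 1) {X : M4} (hX : X ∈ sp) :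
    sym3 P * X * sym3 P' ∈ sp := by
  have hX' : Xᵀ * Om + Om * X = 0 := hX
  have hQ : sym3 P * sym3 P' = 1 := by rw [← sym3_mul, h, sym3_one]
  have hQ' : sym3 P' * sym3 P = 1 := mul_eq_one_comm.mp hQ
  have e1 : (sym3 P)ᵀ * Om = P.det ^ 3 • (Om * sym3 P') := by
    calc (sym3 P)ᵀ * Om = (sym3 P)ᵀ * Om * (sym3 P * sym3 P') := by rw [hQ, mul_one]
      _ = ((sym3 P)ᵀ * Om * sym3 P) * sym3 P' := by simp only [mul_assoc]
      _ = _ := by rw [sym3_Om, Matrix.smul_mul]
  have e2 : Om * sym3 P = P.det ^ 3 • ((sym3 P')ᵀ * Om) := by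
    calc Om * sym3 P = (sym3 P * sym3 P')ᵀ * (Om * sym3 P) := by
          rw [hQ, Matrix.transpose_one, one_mul]
      _ = (sym3 P')ᵀ * ((sym3 P)ᵀ * Om * sym3 P) := by
          rw [Matrix.transpose_mul]; simp only [mul_assoc]
      _ = _ := by rw [sym3_Om, Matrix.mul_smul]
  change (sym3 P * X * sym3 P')ᵀ * Om + Om * (sym3 P * X * sym3 P') = 0
  calc (sym3 P * X * sym3 P')ᵀ * Om + Om * (sym3 P * X * sym3 P')
      = (sym3 P')ᵀ * Xᵀ * ((sym3 P)ᵀ * Om) + (Om * sym3 P) * X * sym3 P' := by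
        rw [Matrix.transpose_mul, Matrix.transpose_mul]; simp only [mul_assoc]
    _ = P.det ^ 3 • ((sym3 P')ᵀ * (Xᵀ * Om + Om * X) * sym3 P') := by
        rw [e1, e2]
        simp only [Matrix.mul_smul, Matrix.smul_mul, mul_add, add_mul, smul_add, mul_assoc]
    _ = 0 := by rw [hX']; simp

theorem sym3_dg (l m : ℝ) (h : l * m = 1) :
    sym3 (dg l m) = Matrix.diagonal ![l ^ 3, l, m, m ^ 3] := by
  ext i j
  fin_cases i <;> fin_cases j <;> simp [sym3, dg]
  · linear_combination l * h
  · linear_combination m * h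

/-- the entries of the diagonal matrix `sym3 (dg l m)` are distinct -/
theorem dist (l m : ℝ) (h : l * m = 1) (h2 : l ^ 2 ≠ m ^ 2) :
    ∀ i j : Fin 4, i ≠ j → (![l ^ 3, l, m, m ^ 3] : Fin 4 → ℝ) i ≠ (![l ^ 3, l, m, m ^ 3] : Fin 4 → ℝ) j := by
  have hl0 : l ≠ 0 := left_ne_zero_of_mul_eq_one h
  have hm0 : m ≠ 0 := right_ne_zero_of_mul_eq_one h
  have hl2 : l ^ 2 ≠ 1 := by
    intro h3
    apply h2
    have : m ^ 2 = 1 := by
      have : (l * m) ^ 2 = 1 := by rw [h]; norm_num
      rw [mul_pow, h3, one_mul] at this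
      exact this
    rw [h3, this]
  have hm2 : m ^ 2 ≠ 1 := by
    intro h3
    apply hl2
    have : (l * m) ^ 2 = 1 := by rw [h]; norm_num
    rw [mul_pow, h3, mul_one] at this
    exact this
  have h01 : l ^ 3 ≠ l := by
    intro h3
    have : l * (l ^ 2 - 1) = 0 := by linear_combination h3
    rcases mul_eq_zero.mp this with h4 | h4
    · exact hl0 h4
    · exact hl2 (by linarith)
  have h23 : m ^ 3 ≠ m := by
    intro h3
    have : m * (m ^ 2 - 1) = 0 := by linear_combination h3
    rcases mul_eq_zero.mp this with h4 | h4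
    · exact hm0 h4
    · exact hm2 (by linarith)
  have h12 : l ≠ m := by
    intro h3; exact h2 (by rw [h3])
  have h02 : l ^ 3 ≠ m := by
    intro h3
    have h4 : (l ^ 2) ^ 2 = 1 := by
      have : l * l ^ 3 = l * m := by rw [h3]
      rw [h] at this
      linear_combination this
    have h5 : (l ^ 2 - 1) * (l ^ 2 + 1) = 0 := by linear_combination h4
    rcases mul_eq_zero.mp h5 with h6 | h6
    · exact hl2 (by linarith)
    · nlinarith [sq_nonneg l]
  have h13 : l ≠ m ^ 3 := by
    intro h3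
    have h4 : (m ^ 2) ^ 2 = 1 := by
      have : m * m ^ 3 = m * l := by rw [h3]
      rw [mul_comm m l, h] at this
      linear_combination this
    have h5 : (m ^ 2 - 1) * (m ^ 2 + 1) = 0 := by linear_combination h4
    rcases mul_eq_zero.mp h5 with h6 | h6
    · exact hm2 (by linarith)
    · nlinarith [sq_nonneg m]
  have h03 : l ^ 3 ≠ m ^ 3 := by
    intro h3
    have h4 : (l - m) * (l ^ 2 + l * m + m ^ 2) = 0 := by linear_combination h3
    rcases mul_eq_zero.mp h4 with h6 | h6
    · exact h12 (by linarith)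
    · rw [h] at h6
      nlinarith [sq_nonneg l, sq_nonneg m]
  intro i j hij
  fin_cases i <;> fin_cases j <;> simp at hij ⊢
  · exact h01
  · exact h02
  · exact h03
  · exact h01.symm
  · exact h12
  · exact h13
  · exact h02.symm
  · exact h12.symm
  · exact h23.symm
  · exact h03.symm
  · exact h13.symm
  · exact h23

/-- equations of `sp` -/
theorem sp_eqs {X : M4} (hX : X ∈ sp) :
    X 3 3 = -X 0 0 ∧ X 2 2 = -X 1 1 ∧ X 2 3 = 3 * X 0 1 ∧ X 1 3 = -3 * X 0 2 ∧
      X 1 0 = 3 * X 3 2 ∧ X 2 0 = -3 * X 3 1 := by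
  have hX' : Xᵀ * Om + Om * X = 0 := hX
  have e : ∀ i j, (Xᵀ * Om + Om * X) i j = 0 := fun i j => by rw [hX']; rfl
  have e01 := e 0 1
  have e02 := e 0 2
  have e03 := e 0 3
  have e12 := e 1 2
  have e13 := e 1 3
  have e23 := e 2 3
  simp [Om, Matrix.mul_apply, Fin.sum_univ_succ, Matrix.vecMul, dotProduct] at e01 e02 e03 e12 e13 e23
  refine ⟨by linarith, by linarith, by linarith, by linarith, by linarith, by linarith⟩

theorem mem_sp {X : M4} (h : X 3 3 = -X 0 0 ∧ X 2 2 = -X 1 1 ∧ X 2 3 = 3 * X 0 1 ∧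
    X 1 3 = -3 * X 0 2 ∧ X 1 0 = 3 * X 3 2 ∧ X 2 0 = -3 * X 3 1) : X ∈ sp := by
  obtain ⟨h1, h2, h3, h4, h5, h6⟩ := h
  change Xᵀ * Om + Om * X = 0
  ext i j
  fin_cases i <;> fin_cases j <;>
    simp [Om, Matrix.mul_apply, Fin.sum_univ_succ, Matrix.vecMul, dotProduct] <;> linarith

/-- a matrix commuting with a diagonal matrix with distinct entries is diagonal -/
theorem comm_diag {g : Fin 4 → ℝ} (hg : ∀ i j, i ≠ j → g i ≠ g j) {X : M4}
    (h : X * Matrix.diagonal g = Matrix.diagonal g * X) : ∀ i j, i ≠ j → X i j = 0 := by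
  intro i j hij
  have e := congrFun (congrFun h i) j
  rw [Matrix.mul_diagonal, Matrix.diagonal_mul] at e
  have : X i j * (g j - g i) = 0 := by linear_combination e
  rcases mul_eq_zero.mp this with h1 | h1
  · exact h1
  · exact absurd (sub_eq_zero.mp h1) (hg j i (Ne.symm hij))

end Pool.Agent.P8H63.HR
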